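import Pool.Agent.H37.CTT.Stmts

/-!
# Board `ctt`, row SC1 (helper46): the form on the roots
-/

set_option autoImplicit false

namespace Pool.CND

open Finset Polynomial Matrix

namespace SC1

section

variable {L : Type} [Field L] {p f q : ℕ}

theorem pow_add' (hp : p.Prime) [CharP L p] (hq : q = p ^ f) (s : ℕ) (x y : L) :
    (x + y) ^ q ^ s = x ^ q ^ s + y ^ q ^ s := by
  have : Fact p.Prime := ⟨hp⟩
  rw [hq, ← pow_mul]
  exact add_pow_char_pow x y p (f * s)

theorem pow_add1 (hp : p.Prime) [CharP L p] (hq : q = p ^ f) (x y : L) :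
    (x + y) ^ q = x ^ q + y ^ q := by
  have h := pow_add' hp hq 1 x y
  rwa [pow_one] at h

theorem pow_sub1 (hp : p.Prime) [CharP L p] (hq : q = p ^ f) (x y : L) :
    (x - y) ^ q = x ^ q - y ^ q := by
  have h := pow_add1 hp hq (x - y) y
  rw [sub_add_cancel] at h
  rw [h]
  ring

theorem pow_cst' {c : L} (hc : c ^ q = c) (s : ℕ) : c ^ q ^ s = c := by
  induction s with
  | zero => rw [pow_zero, pow_one]
  | succ n ih => rw [pow_succ, pow_mul, ih, hc]

/-- the expanded form -/
theorem exp (hp : p.Prime) [CharP L p] (hq : q = p ^ f) (a x y : L) :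
    sB q a x y = (x ^ q ^ 2 * y - x * y ^ q ^ 2) + (x ^ q ^ 3 * y ^ q - x ^ q * y ^ q ^ 3) -
      a * (x ^ q ^ 2 * y ^ q - x ^ q * y ^ q ^ 2) := by
  have e : ∀ z : L, (z ^ q ^ 2) ^ q = z ^ q ^ 3 := fun z => by rw [← pow_mul, ← pow_succ]
  unfold sB
  rw [pow_sub1 hp hq, mul_pow, mul_pow, e, e]

theorem frob (hp : p.Prime) [CharP L p] (hq : q = p ^ f) (a b x y : L) :
    sB q a x y ^ q - sB q a x y =
      y ^ q ^ 2 * (x ^ q ^ 4 - a ^ q * x ^ q ^ 3 - b * x ^ q ^ 2 - a * x ^ q + x) -
      x ^ q ^ 2 * (y ^ q ^ 4 - a ^ q * y ^ q ^ 3 - b * y ^ q ^ 2 - a * y ^ q + y) := by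
  have e1 : ∀ z : L, (z ^ q) ^ q = z ^ q ^ 2 := fun z => by rw [← pow_mul, sq]
  have e2 : ∀ z : L, (z ^ q ^ 2) ^ q = z ^ q ^ 3 := fun z => by rw [← pow_mul, ← pow_succ]
  have e3 : ∀ z : L, (z ^ q ^ 3) ^ q = z ^ q ^ 4 := fun z => by rw [← pow_mul, ← pow_succ]
  rw [exp hp hq, pow_sub1 hp hq, pow_add1 hp hq, pow_sub1 hp hq, pow_sub1 hp hq, mul_pow a,
    pow_sub1 hp hq]
  simp only [mul_pow, e1, e2, e3]
  ring

theorem add_left (hp : p.Prime) [CharP L p] (hq : q = p ^ f) (a x x' y : L) :
    sB q a (x + x') y = sB q a x y + sB q a x' y := by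
  rw [exp hp hq, exp hp hq, exp hp hq, pow_add' hp hq, pow_add' hp hq, pow_add1 hp hq]
  ring

theorem smul_left (hp : p.Prime) [CharP L p] (hq : q = p ^ f) {c : L} (hc : c ^ q = c)
    (a x y : L) : sB q a (c * x) y = c * sB q a x y := by
  rw [exp hp hq, exp hp hq, mul_pow, mul_pow, mul_pow, pow_cst' hc, pow_cst' hc, hc]
  ring

theorem anti (hp : p.Prime) [CharP L p] (hq : q = p ^ f) (a x y : L) :
    sB q a y x = -sB q a x y := by
  rw [exp hp hq, exp hp hq]
  ring

theorem self (hq0 : q ≠ 0) (a x : L) : sB q a x x = 0 := by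
  unfold sB
  have e1 : x ^ q ^ 2 * x - x * x ^ q ^ 2 = 0 := by ring
  have e2 : x ^ q ^ 2 * x ^ q - x ^ q * x ^ q ^ 2 = 0 := by ring
  rw [e1, e2, zero_pow hq0]
  ring

theorem sum_left (hp : p.Prime) [CharP L p] (hq : q = p ^ f) {n : ℕ} (c X : Fin n → L)
    (hc : ∀ i, c i ^ q = c i) (a y : L) :
    sB q a (∑ i, c i * X i) y = ∑ i, c i * sB q a (X i) y := by
  have hq0 : q ≠ 0 := by rw [hq]; exact pow_ne_zero _ hp.ne_zero
  have h : ∀ u : Finset (Fin n), sB q a (∑ i ∈ u, c i * X i) y = ∑ i ∈ u, c i * sB q a (X i) y := by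
    intro u
    classical
    induction u using Finset.induction_on with
    | empty =>
      rw [sum_empty, sum_empty]
      have h0 := smul_left hp hq (c := (0 : L)) (zero_pow hq0) a 0 y
      rwa [zero_mul, zero_mul] at h0
    | insert i u hi ih =>
      rw [sum_insert hi, sum_insert hi, add_left hp hq, ih, smul_left hp hq (hc i)]
  exact h univ

theorem sum_right (hp : p.Prime) [CharP L p] (hq : q = p ^ f) {n : ℕ} (c X : Fin n → L)
    (hc : ∀ i, c i ^ q = c i) (a y : L) :
    sB q a y (∑ i, c i * X i) = ∑ i, c i * sB q a y (X i) := by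
  rw [anti hp hq a _ y, sum_left hp hq c X hc, ← Finset.sum_neg_distrib]
  refine Finset.sum_congr rfl fun i _ => ?_
  rw [anti hp hq a y (X i)]
  ring

end

/-- the elements with `z ^ q = z` -/
theorem mem_of_pow {F L : Type} [Field F] [Field L] (φ : F →+* L) {q : ℕ} (hq2 : 2 ≤ q)
    (hF : Nat.card F = q) (z : L) (hz : z ^ q = z) : ∃ c : F, φ c = z := by
  classical
  by_contra hcon
  push Not at hcon
  have hfin : Finite F := Nat.finite_of_card_ne_zero (by omega)
  have := Fintype.ofFinite F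
  have hcF : Fintype.card F = q := by rw [← Nat.card_eq_fintype_card, hF]
  have hpow : ∀ a : F, a ^ q = a := by
    intro a
    rw [← hcF]
    exact FiniteField.pow_card a
  have hne : (Polynomial.X ^ q - Polynomial.X : L[X]) ≠ 0 :=
    (Polynomial.monic_X_pow_sub (n := q) (p := (Polynomial.X : L[X])) (by
      rw [Polynomial.degree_X]
      exact_mod_cast hq2)).ne_zero
  apply hne
  have hdeg : (Polynomial.X ^ q - Polynomial.X : L[X]).natDegree = q :=
    FiniteField.X_pow_card_sub_X_natDegree_eq L (by omega)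
  refine Polynomial.eq_zero_of_natDegree_lt_card_of_eval_eq_zero _
    (f := fun o : Option F => o.elim z φ) ?_ ?_ ?_
  · intro o o' h
    cases o with
    | none =>
      cases o' with
      | none => rfl
      | some c' => exact absurd h.symm (hcon c')
    | some c =>
      cases o' with
      | none => exact absurd h (hcon c)
      | some c' => exact congrArg some (φ.injective h)
  · intro o
    cases o with
    | none =>
      show Polynomial.eval z _ = 0
      rw [Polynomial.eval_sub, Polynomial.eval_pow, Polynomial.eval_X, hz, sub_self]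
    | some c =>
      show Polynomial.eval (φ c) _ = 0
      rw [Polynomial.eval_sub, Polynomial.eval_pow, Polynomial.eval_X, ← map_pow, hpow, sub_self]
  · rw [hdeg, Fintype.card_option, hcF]
    omega

end SC1

theorem sc1_thm : S_SC1 := by
  classical
  intro p k F L _ _ _ _ _ _ f q t α β X G₀ ρ hp hchar hf hq hF hX ind hcov
  have hpL : CharP L p := charP_of_injective_algebraMap (algebraMap k L).injective p
  have hq2 : 2 ≤ q := by
    rw [hq]
    calc 2 ≤ p := hp.two_le
      _ = p ^ 1 := (pow_one p).symm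
      _ ≤ p ^ f := Nat.pow_le_pow_right hp.pos hf
  have hq0 : q ≠ 0 := by omega
  have hfin : Finite F := Nat.finite_of_card_ne_zero (by omega)
  have := Fintype.ofFinite F
  have hcF : Fintype.card F = q := by rw [← Nat.card_eq_fintype_card, hF]
  have hpow : ∀ a : F, a ^ q = a := by
    intro a
    rw [← hcF]
    exact FiniteField.pow_card a
  let φ : F →+* L := (algebraMap k L).comp (algebraMap F k)
  have hφc : ∀ c : F, cst k F L c = φ c := fun c => rfl
  have hφ : ∀ c : F, φ c ^ q = φ c := fun c => by rw [← map_pow, hpow]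
  simp only [hφc] at ind ⊢
  set a : L := aeval t α with ha
  have hval : ∀ i j, ∃ c : F, φ c = sB q a (X i) (X j) := by
    intro i j
    refine SC1.mem_of_pow φ hq2 hF _ ?_
    have h := SC1.frob hp hq a (aeval t β) (X i) (X j)
    rw [hX i, hX j, mul_zero, mul_zero, sub_zero] at h
    exact sub_eq_zero.1 h
  choose M0 hM0 using hval
  have hcomb : ∀ c d : Fin 4 → F, sB q a (∑ i, φ (c i) * X i) (∑ j, φ (d j) * X j) =
      φ (∑ i, ∑ j, c i * (M0 i j * d j)) := by
    intro c d
    rw [SC1.sum_left hp hq _ _ (fun i => hφ (c i)), map_sum]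
    refine Finset.sum_congr rfl fun i _ => ?_
    rw [SC1.sum_right hp hq _ _ (fun i => hφ (d i)), Finset.mul_sum, map_sum]
    refine Finset.sum_congr rfl fun j _ => ?_
    rw [map_mul, map_mul, hM0]
    ring
  refine ⟨Matrix.of M0, ?_, ?_, ?_, ?_, ?_⟩
  · intro hdet
    obtain ⟨v, hv0, hv⟩ := Matrix.exists_mulVec_eq_zero_iff.2 hdet
    have hy0 : ∑ j, φ (v j) * X j ≠ 0 := fun h => hv0 (ind v h)
    set y : L := ∑ j, φ (v j) * X j with hy
    have hzero : ∀ c : Fin 4 → F, sB q a (∑ i, φ (c i) * X i) y = 0 := by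
      intro c
      rw [hy, hcomb]
      have e : ∑ i, ∑ j, c i * (M0 i j * v j) = ∑ i, c i * ((Matrix.of M0).mulVec v) i := by
        refine Finset.sum_congr rfl fun i _ => ?_
        rw [Matrix.mulVec, dotProduct, Finset.mul_sum]
        rfl
      rw [e, hv]
      simp
    -- the polynomial
    set R : L[X] := Polynomial.C (y ^ q) * Polynomial.X ^ q ^ 3 +
      (Polynomial.C (y - a * y ^ q) * Polynomial.X ^ q ^ 2 +
        (Polynomial.C (-y ^ q ^ 3 + a * y ^ q ^ 2) * Polynomial.X ^ q -
          Polynomial.C (y ^ q ^ 2) * Polynomial.X)) with hR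
    have hev : ∀ x : L, R.eval x = sB q a x y := by
      intro x
      rw [SC1.exp hp hq, hR]
      simp only [eval_add, eval_sub, eval_mul, eval_C, eval_pow, eval_X]
      ring
    have h13 : 1 < q ^ 3 := Nat.one_lt_pow (by norm_num) (by omega)
    have h23 : q ^ 2 < q ^ 3 := Nat.pow_lt_pow_right (by omega) (by norm_num)
    have h12 : q < q ^ 2 := by
      calc q = q ^ 1 := (pow_one q).symm
        _ < q ^ 2 := Nat.pow_lt_pow_right (by omega) (by norm_num)
    have h34 : q ^ 3 < q ^ 4 := Nat.pow_lt_pow_right (by omega) (by norm_num)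
    have hco : R.coeff (q ^ 3) = y ^ q := by
      rw [hR]
      simp only [coeff_add, coeff_sub, coeff_C_mul, coeff_X_pow, coeff_X]
      rw [if_pos trivial, if_neg (by omega), if_neg (by omega), if_neg (by omega)]
      ring
    have hne : R ≠ 0 := by
      intro h0
      rw [h0, coeff_zero] at hco
      exact hy0 (pow_eq_zero_iff hq0 |>.1 hco.symm)
    have hdeg : R.natDegree ≤ q ^ 3 := by
      rw [hR]
      refine (natDegree_add_le _ _).trans (max_le (natDegree_C_mul_X_pow_le _ _) ?_)
      refine (natDegree_add_le _ _).trans (max_le ((natDegree_C_mul_X_pow_le _ _).trans h23.le) ?_)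
      refine (natDegree_sub_le _ _).trans (max_le ((natDegree_C_mul_X_pow_le _ _).trans
        (by omega)) ?_)
      refine (natDegree_C_mul_le _ _).trans ?_
      rw [natDegree_X]
      omega
    apply hne
    refine Polynomial.eq_zero_of_natDegree_lt_card_of_eval_eq_zero R
      (f := fun c : Fin 4 → F => ∑ i, φ (c i) * X i) ?_ ?_ ?_
    · intro c d h
      have h' : ∑ i, φ (c i) * X i = ∑ i, φ (d i) * X i := h
      rw [← sub_eq_zero]
      apply ind
      have e : ∀ i, φ ((c - d) i) * X i = φ (c i) * X i - φ (d i) * X i := fun i => by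
        rw [Pi.sub_apply, map_sub, sub_mul]
      rw [Finset.sum_congr rfl fun i _ => e i, Finset.sum_sub_distrib, h', sub_self]
    · intro c
      rw [hev]
      exact hzero c
    · rw [Fintype.card_fun, hcF, Fintype.card_fin]
      omega
  · ext i j
    rw [Matrix.transpose_apply, Matrix.neg_apply, Matrix.of_apply, Matrix.of_apply]
    apply φ.injective
    rw [map_neg, hM0, hM0]
    exact SC1.anti hp hq a (X i) (X j)
  · intro i
    rw [Matrix.of_apply]
    apply φ.injective
    rw [hM0, map_zero]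
    exact SC1.self hq0 a (X i)
  · intro i j
    rw [Matrix.of_apply, hM0]
  · intro g hg
    have hfix : ρ ⟨g, hg⟩ a = a := by
      have ht : ρ ⟨g, hg⟩ t = t :=
        (hcov.cov.fixed t).2 (IntermediateField.mem_adjoin_simple_self k t) ⟨g, hg⟩
      have h := Polynomial.aeval_algHom_apply (ρ ⟨g, hg⟩ : L →ₐ[k] L) t α
      have h2 : ((ρ ⟨g, hg⟩ : L ≃ₐ[k] L) : L →ₐ[k] L) t = t := ht
      rw [h2] at h
      exact h.symm
    have hmap : ∀ x y : L, ρ ⟨g, hg⟩ (sB q a x y) =
        sB q a (ρ ⟨g, hg⟩ x) (ρ ⟨g, hg⟩ y) := by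
      intro x y
      unfold sB
      simp only [map_add, map_sub, map_mul, map_pow, hfix]
    ext i j
    apply φ.injective
    have h1 : ρ ⟨g, hg⟩ (sB q a (X i) (X j)) = sB q a (X i) (X j) := by
      rw [← hM0]
      exact (ρ ⟨g, hg⟩).commutes (algebraMap F k (M0 i j))
    rw [hmap, hcov.act, hcov.act] at h1
    simp only [hφc] at h1
    rw [hcomb, ← hM0] at h1
    rw [Matrix.of_apply, ← h1]
    congr 1
    rw [Matrix.mul_assoc, Matrix.mul_apply]
    refine Finset.sum_congr rfl fun l _ => ?_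
    rw [Matrix.transpose_apply, Matrix.mul_apply, Finset.mul_sum]
    rfl

end Pool.CND
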